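import Mathlib

/-!
# The Lyndon positivity property fails for `GL.3` and `Grz.3`

The formula `φ = ◇(r ∧ p) ∧ (□(¬r ∨ □(r ∨ □(¬r ∨ ¬p))) ∨ ◇((r ∧ p) ∧ ◇(¬r ∧ ◇(r ∧ p))))` is
`p`-monotone in `K4.3`.  On a long finite linear order with `r` true at the odd points, `φ` holds at
`0` when `p` is true exactly at `1` and fails when `p` is true exactly at `3`; but every
`p`-positive formula of small modal depth true in the first model is true in the second.
-/

set_option autoImplicit false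

namespace Pool.Agent.Results.MP_4f615a_lc.NoLyndonPositivity

/-- Modal formulas, built from literals. -/
inductive Form : Type
  | pos (n : ℕ) : Form
  | neg (n : ℕ) : Form
  | top : Form
  | bot : Form
  | and (a b : Form) : Form
  | or (a b : Form) : Form
  | dia (a : Form) : Form
  | box (a : Form) : Form

/-- Negation, by the De Morgan and modal duality laws. -/
def Form.not : Form → Form
  | Form.pos n => Form.neg n
  | Form.neg n => Form.pos n
  | Form.top => Form.bot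
  | Form.bot => Form.top
  | Form.and a b => Form.or a.not b.not
  | Form.or a b => Form.and a.not b.not
  | Form.dia a => Form.box a.not
  | Form.box a => Form.dia a.not

/-- `a → b`. -/
def Form.imp (a b : Form) : Form := Form.or a.not b

/-- `a ↔ b`. -/
def Form.iff (a b : Form) : Form := Form.and (a.imp b) (b.imp a)

/-- The variables of a formula. -/
def Form.vars : Form → Finset ℕ
  | Form.pos n => {n}
  | Form.neg n => {n}
  | Form.top => ∅
  | Form.bot => ∅
  | Form.and a b => a.vars ∪ b.vars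
  | Form.or a b => a.vars ∪ b.vars
  | Form.dia a => a.vars
  | Form.box a => a.vars

/-- No literal `¬p` with `p ∈ P` occurs. -/
def Form.Positive (P : Finset ℕ) : Form → Prop
  | Form.pos _ => True
  | Form.neg n => n ∉ P
  | Form.top => True
  | Form.bot => True
  | Form.and a b => a.Positive P ∧ b.Positive P
  | Form.or a b => a.Positive P ∧ b.Positive P
  | Form.dia a => a.Positive P
  | Form.box a => a.Positive P

/-- Truth at a world of a Kripke model. -/
def sat {W : Type} (R : W → W → Prop) (V : ℕ → W → Prop) : W → Form → Prop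
  | w, Form.pos n => V n w
  | w, Form.neg n => ¬ V n w
  | _, Form.top => True
  | _, Form.bot => False
  | w, Form.and a b => sat R V w a ∧ sat R V w b
  | w, Form.or a b => sat R V w a ∨ sat R V w b
  | w, Form.dia a => ∃ u, R w u ∧ sat R V u a
  | w, Form.box a => ∀ u, R w u → sat R V u a

/-- `K4.3`: the logic of the transitive weakly connected frames. -/
def K43 : Set Form := {φ | ∀ (W : Type) (R : W → W → Prop), (∀ x y z, R x y → R y z → R x z) →
  (∀ x y z, R x y → R x z → R y z ∨ y = z ∨ R z y) → ∀ (V : ℕ → W → Prop) (w : W), sat R V w φ}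

/-- `GL.3`: the logic of all finite strict linear orders. -/
def GL3 : Set Form := {φ | ∀ (W : Type) [LinearOrder W] [Finite W] (V : ℕ → W → Prop) (w : W),
  sat (fun x y => x < y) V w φ}

/-- `Grz.3`: the logic of all finite reflexive linear orders. -/
def Grz3 : Set Form := {φ | ∀ (W : Type) [LinearOrder W] [Finite W] (V : ℕ → W → Prop) (w : W),
  sat (fun x y => x ≤ y) V w φ}

/-- The value of a formula in a Boolean algebra with an operation `d` for `◇`. -/
def value {A : Type} [BooleanAlgebra A] (d : A → A) (θ : ℕ → A) : Form → A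
  | Form.pos n => θ n
  | Form.neg n => (θ n)ᶜ
  | Form.top => ⊤
  | Form.bot => ⊥
  | Form.and a b => value d θ a ⊓ value d θ b
  | Form.or a b => value d θ a ⊔ value d θ b
  | Form.dia a => d (value d θ a)
  | Form.box a => (d (value d θ a)ᶜ)ᶜ

/-- `φ` is `P`-monotone in `Λ`: in every modal algebra validating `Λ`, the value of `φ` does not
decrease when the values of the variables in `P` are increased. -/
def Monotone (Λ : Set Form) (P : Finset ℕ) (φ : Form) : Prop :=
  ∀ (A : Type) [BooleanAlgebra A] (d : A → A), d ⊥ = ⊥ → (∀ a b, d (a ⊔ b) = d a ⊔ d b) →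
    (∀ ψ ∈ Λ, ∀ θ : ℕ → A, value d θ ψ = ⊤) →
    ∀ θ₁ θ₂ : ℕ → A, (∀ n, n ∉ P → θ₁ n = θ₂ n) → (∀ n ∈ P, θ₁ n ≤ θ₂ n) →
      value d θ₁ φ ≤ value d θ₂ φ

/-- The Lyndon positivity property. -/
def LPP (Λ : Set Form) : Prop :=
  ∀ (P Q : Finset ℕ), Disjoint P Q → ∀ φ : Form, φ.vars ⊆ P ∪ Q → Monotone Λ P φ →
    ∃ α : Form, α.vars ⊆ P ∪ Q ∧ α.Positive P ∧ φ.iff α ∈ Λ

lemma sat_not {W : Type} (R : W → W → Prop) (V : ℕ → W → Prop) (φ : Form) :
    ∀ w, sat R V w φ.not ↔ ¬ sat R V w φ := by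
  induction φ with
  | pos n => intro w; rfl
  | neg n => intro w; exact not_not.symm
  | top => intro w; exact ⟨fun h => h.elim, fun h => (h trivial).elim⟩
  | bot => intro w; exact ⟨fun _ h => h, fun _ => trivial⟩
  | and a b iha ihb =>
    intro w
    show (sat R V w a.not ∨ sat R V w b.not) ↔ ¬ (sat R V w a ∧ sat R V w b)
    rw [iha, ihb, not_and_or]
  | or a b iha ihb =>
    intro w
    show (sat R V w a.not ∧ sat R V w b.not) ↔ ¬ (sat R V w a ∨ sat R V w b)
    rw [iha, ihb, not_or]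
  | dia a ih =>
    intro w
    show (∀ u, R w u → sat R V u a.not) ↔ ¬ ∃ u, R w u ∧ sat R V u a
    simp only [ih]
    push Not
    rfl
  | box a ih =>
    intro w
    show (∃ u, R w u ∧ sat R V u a.not) ↔ ¬ ∀ u, R w u → sat R V u a
    simp only [ih]
    push Not
    rfl

/-- `r ∧ p`, where `r` is the variable `1` and `p` the variable `p`. -/
def rp (p : Form) : Form := Form.and (Form.pos 1) p

/-- The formula of the proof; `p` is a formula and `np` its negation. -/
def phi (p np : Form) : Form :=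
  Form.and (Form.dia (rp p))
    (Form.or
      (Form.box (Form.or (Form.neg 1) (Form.box (Form.or (Form.pos 1)
        (Form.box (Form.or (Form.neg 1) np))))))
      (Form.dia (Form.and (rp p) (Form.dia (Form.and (Form.neg 1) (Form.dia (rp p)))))))

/-- `φ(p)`. -/
def phi₁ : Form := phi (Form.pos 0) (Form.neg 0)

/-- `φ(p ∨ q)`, with `q` the variable `2`. -/
def phi₂ : Form := phi (Form.or (Form.pos 0) (Form.pos 2)) (Form.and (Form.neg 0) (Form.neg 2))

/-- `φ(p) → φ(p ∨ q)` belongs to `K4.3`. -/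
lemma mono_K43 : phi₁.imp phi₂ ∈ K43 := by
  intro W R htr hconn V x
  show sat R V x phi₁.not ∨ sat R V x phi₂
  rw [sat_not]
  by_cases h : sat R V x phi₁
  swap
  · exact Or.inl h
  right
  obtain ⟨⟨s, hxs, hs1, hs0⟩, h2⟩ := h
  refine ⟨⟨s, hxs, hs1, Or.inl hs0⟩, ?_⟩
  rcases h2 with h2 | ⟨a, h3, ⟨h4, h5⟩, b, h6, h7, c, h8, h9, h10⟩
  swap
  · exact Or.inr ⟨a, h3, ⟨h4, Or.inl h5⟩, b, h6, h7, c, h8, h9, Or.inl h10⟩
  by_cases hbox : ∀ t₁, R x t₁ → (¬ V 1 t₁ ∨ ∀ t₂, R t₁ t₂ → (V 1 t₂ ∨ ∀ t₃, R t₂ t₃ →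
      (¬ V 1 t₃ ∨ (¬ V 0 t₃ ∧ ¬ V 2 t₃))))
  · exact Or.inl hbox
  right
  push Not at hbox
  obtain ⟨t₁, hx1, hr1, t₂, h12, hr2, t₃, h23, hr3, hq3⟩ := hbox
  have hQ3 : V 0 t₃ ∨ V 2 t₃ := by
    by_cases h0 : V 0 t₃
    · exact Or.inl h0
    · exact Or.inr (hq3 h0)
  have done : R s t₂ → sat R V x (Form.dia (Form.and (rp (Form.or (Form.pos 0) (Form.pos 2)))
      (Form.dia (Form.and (Form.neg 1) (Form.dia (rp (Form.or (Form.pos 0) (Form.pos 2)))))))) :=
    fun h => ⟨s, hxs, ⟨hs1, Or.inl hs0⟩, t₂, h, hr2, t₃, h23, hr3, hQ3⟩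
  rcases hconn x s t₁ hxs hx1 with h | h | h
  · exact done (htr _ _ _ h h12)
  · exact done (h ▸ h12)
  · rcases hconn t₁ s t₂ h h12 with h' | h' | h'
    · exact done h'
    · subst h'
      exact absurd hs1 hr2
    · rcases h2 t₁ hx1 with h3 | h3
      · exact absurd hr1 h3
      · rcases h3 t₂ h12 with h4 | h4
        · exact absurd h4 hr2
        · rcases h4 s h' with h5 | h5
          · exact absurd hs1 h5
          · exact absurd hs0 h5

lemma le_of_imp {A : Type} [BooleanAlgebra A] {a b : A} (h : aᶜ ⊔ b = ⊤) : a ≤ b := by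
  have : a ⊓ (aᶜ ⊔ b) = a := by rw [h, inf_top_eq]
  rw [inf_sup_left, inf_compl_eq_bot, bot_sup_eq] at this
  exact inf_eq_left.1 this

lemma value_not {A : Type} [BooleanAlgebra A] (d : A → A) (θ : ℕ → A) (φ : Form) :
    value d θ φ.not = (value d θ φ)ᶜ := by
  induction φ with
  | pos n => rfl
  | neg n => exact (compl_compl _).symm
  | top => exact compl_top.symm
  | bot => exact compl_bot.symm
  | and a b iha ihb =>
    show value d θ a.not ⊔ value d θ b.not = (value d θ a ⊓ value d θ b)ᶜ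
    rw [iha, ihb, compl_inf]
  | or a b iha ihb =>
    show value d θ a.not ⊓ value d θ b.not = (value d θ a ⊔ value d θ b)ᶜ
    rw [iha, ihb, compl_sup]
  | dia a ih =>
    show (d (value d θ a.not)ᶜ)ᶜ = (d (value d θ a))ᶜ
    rw [ih, compl_compl]
  | box a ih =>
    show d (value d θ a.not) = ((d (value d θ a)ᶜ)ᶜ)ᶜ
    rw [ih, compl_compl]

/-- `φ` is `p`-monotone in every logic that contains `K4.3`. -/
lemma phi_monotone {Λ : Set Form} (hΛ : K43 ⊆ Λ) : Monotone Λ {0} phi₁ := by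
  intro A _ d _ _ hval θ₁ θ₂ h1 h2
  have h0 : θ₁ 0 ≤ θ₂ 0 := h2 0 (by simp)
  have hr : θ₁ 1 = θ₂ 1 := h1 1 (by simp)
  let θ : ℕ → A := fun n => if n = 2 then θ₂ 0 else θ₁ n
  have h3 := hval _ (hΛ mono_K43) θ
  have h4 : value d θ (phi₁.imp phi₂) = (value d θ phi₁)ᶜ ⊔ value d θ phi₂ := by
    show value d θ phi₁.not ⊔ value d θ phi₂ = _
    rw [value_not]
  rw [h4] at h3
  have h5 := le_of_imp h3
  have e1 : value d θ phi₁ = value d θ₁ phi₁ := by
    simp [value, phi₁, phi, rp, θ]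
  have e2 : value d θ phi₂ = value d θ₂ phi₁ := by
    have : θ₁ 0 ⊔ θ₂ 0 = θ₂ 0 := sup_eq_right.2 h0
    have h' : (θ₁ 0)ᶜ ⊓ (θ₂ 0)ᶜ = (θ₂ 0)ᶜ := by rw [← compl_sup, this]
    simp [value, phi₁, phi₂, phi, rp, θ, this, h', hr]
  rw [e1, e2] at h5
  exact h5

/-- Modal depth. -/
def depth : Form → ℕ
  | Form.pos _ => 0
  | Form.neg _ => 0
  | Form.top => 0
  | Form.bot => 0
  | Form.and a b => max (depth a) (depth b)
  | Form.or a b => max (depth a) (depth b)
  | Form.dia a => depth a + 1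
  | Form.box a => depth a + 1

/-- The model on `{0, ..., L}`: `r` is true at the odd points and `p` at the point `c`. -/
def Val (L c : ℕ) (n : ℕ) (i : Fin (L + 1)) : Prop :=
  (n = 1 ∧ i.1 % 2 = 1) ∨ (n = 0 ∧ i.1 = c)

/-- The simulation between the model with `c = 1` and the model with `c = 3`. -/
def Sim (L k i j : ℕ) : Prop :=
  i ≤ L ∧ j ≤ L ∧ i % 2 = j % 2 ∧ (i = 0 → j ≤ 2) ∧ (i = 1 → j = 3) ∧
    (i = j ∨ (i + 2 * k ≤ L ∧ j + 2 * k ≤ L))

lemma sim_forth {L k i j i' : ℕ} (hL : 2 * k + 3 ≤ L) (h : Sim L (k + 1) i j) (hi : i < i')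
    (hi' : i' ≤ L) : ∃ j', j < j' ∧ Sim L k i' j' := by
  obtain ⟨h1, h2, h3, h4, h5, h6⟩ := h
  by_cases c1 : i' = 1
  · refine ⟨3, by omega, ?_⟩
    unfold Sim
    omega
  · by_cases c2 : j < i'
    · refine ⟨i', c2, ?_⟩
      unfold Sim
      omega
    · by_cases c3 : i' % 2 = (j + 1) % 2
      · refine ⟨j + 1, by omega, ?_⟩
        unfold Sim
        omega
      · refine ⟨j + 2, by omega, ?_⟩
        unfold Sim
        omega

lemma sim_back {L k i j j' : ℕ} (hL : 2 * k + 3 ≤ L) (h : Sim L (k + 1) i j) (hj : j < j')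
    (hj' : j' ≤ L) : ∃ i', i < i' ∧ Sim L k i' j' := by
  obtain ⟨h1, h2, h3, h4, h5, h6⟩ := h
  by_cases c1 : i < j' ∧ 2 ≤ j'
  · refine ⟨j', c1.1, ?_⟩
    unfold Sim
    omega
  · by_cases c0 : i < 2
    · refine ⟨3, by omega, ?_⟩
      unfold Sim
      omega
    · by_cases c3 : j' % 2 = (i + 1) % 2
      · refine ⟨i + 1, by omega, ?_⟩
        unfold Sim
        omega
      · refine ⟨i + 2, by omega, ?_⟩
        unfold Sim
        omega

lemma sim_mono {L k i j : ℕ} (h : Sim L (k + 1) i j) : Sim L k i j := by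
  unfold Sim at h ⊢
  omega

/-- The relation of the order: strict, or reflexive if `c`. -/
def Rel (L : ℕ) (c : Prop) (i j : Fin (L + 1)) : Prop := i < j ∨ (c ∧ i = j)

/-- Positive formulas of small depth are preserved. -/
lemma preserved (L : ℕ) (c : Prop) (α : Form) (hα : α.Positive {0}) :
    ∀ (k : ℕ), depth α ≤ k → 2 * k + 1 ≤ L → ∀ i j : Fin (L + 1), Sim L k i j →
      sat (Rel L c) (Val L 1) i α → sat (Rel L c) (Val L 3) j α := by
  induction α with
  | pos n =>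
    intro k _ _ i j hS h
    obtain ⟨_, _, h3, _, h5, _⟩ := hS
    rcases h with ⟨h1, h2⟩ | ⟨h1, h2⟩
    · exact Or.inl ⟨h1, by omega⟩
    · exact Or.inr ⟨h1, h5 h2⟩
  | neg n =>
    intro k _ _ i j hS h
    obtain ⟨_, _, h3, _, h5, _⟩ := hS
    have hn : n ≠ 0 := by
      intro h0
      subst h0
      exact hα (by simp)
    rintro (⟨h1, h2⟩ | ⟨h1, _⟩)
    · exact h (Or.inl ⟨h1, by omega⟩)
    · exact hn h1
  | top => intro k _ _ i j _ _; trivial
  | bot => intro k _ _ i j _ h; exact h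
  | and a b iha ihb =>
    intro k hk hL i j hS h
    simp only [depth, max_le_iff] at hk
    exact ⟨iha hα.1 k hk.1 hL i j hS h.1, ihb hα.2 k hk.2 hL i j hS h.2⟩
  | or a b iha ihb =>
    intro k hk hL i j hS h
    simp only [depth, max_le_iff] at hk
    exact h.imp (iha hα.1 k hk.1 hL i j hS) (ihb hα.2 k hk.2 hL i j hS)
  | dia a ih =>
    intro k hk hL i j hS h
    obtain ⟨k, rfl⟩ : ∃ k', k = k' + 1 := ⟨k - 1, by simp only [depth] at hk; omega⟩
    simp only [depth] at hk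
    obtain ⟨i', hi', h1⟩ := h
    rcases hi' with hi' | ⟨hc, rfl⟩
    · obtain ⟨j', hj1, hj2⟩ := sim_forth (by omega) hS hi' (by have := i'.2; omega)
      have hj3 : j' < L + 1 := by
        have := hj2.2.1
        omega
      exact ⟨⟨j', hj3⟩, Or.inl hj1, ih hα k (by omega) (by omega) i' ⟨j', hj3⟩ hj2 h1⟩
    · exact ⟨j, Or.inr ⟨hc, rfl⟩, ih hα k (by omega) (by omega) i j (sim_mono hS) h1⟩
  | box a ih =>
    intro k hk hL i j hS h j' hj'
    obtain ⟨k, rfl⟩ : ∃ k', k = k' + 1 := ⟨k - 1, by simp only [depth] at hk; omega⟩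
    simp only [depth] at hk
    rcases hj' with hj' | ⟨hc, rfl⟩
    · obtain ⟨i', hi1, hi2⟩ := sim_back (by omega) hS hj' (by have := j'.2; omega)
      have hi3 : i' < L + 1 := by
        have := hi2.1
        omega
      exact ih hα k (by omega) (by omega) ⟨i', hi3⟩ j' hi2 (h ⟨i', hi3⟩ (Or.inl hi1))
    · exact ih hα k (by omega) (by omega) i j (sim_mono hS) (h i (Or.inr ⟨hc, rfl⟩))

/-- `φ` is true in the first model. -/
lemma phi_true (L : ℕ) (hL : 3 ≤ L) (c : Prop) :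
    sat (Rel L c) (Val L 1) (⟨0, by omega⟩ : Fin (L + 1)) phi₁ := by
  refine ⟨⟨⟨1, by omega⟩, Or.inl (by simp [Fin.lt_def]), Or.inl ⟨rfl, rfl⟩, Or.inr ⟨rfl, rfl⟩⟩,
    Or.inl ?_⟩
  intro t₁ _
  by_cases h1 : t₁.1 % 2 = 1
  swap
  · left
    rintro (⟨_, h⟩ | ⟨h, _⟩)
    · exact h1 h
    · omega
  right
  intro t₂ h12
  by_cases h2 : t₂.1 % 2 = 1
  · exact Or.inl (Or.inl ⟨rfl, h2⟩)
  right
  intro t₃ h23
  right
  rintro (⟨h, _⟩ | ⟨_, h⟩)
  · omega
  · have e1 : t₁.1 < t₂.1 := by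
      rcases h12 with h' | ⟨_, h'⟩
      · exact h'
      · subst h'; exact absurd h1 h2
    have e2 : t₂.1 ≤ t₃.1 := by
      rcases h23 with h' | ⟨_, h'⟩
      · exact le_of_lt h'
      · rw [h']
    omega

/-- `φ` is false in the second model. -/
lemma phi_false (L : ℕ) (hL : 3 ≤ L) (c : Prop) :
    ¬ sat (Rel L c) (Val L 3) (⟨0, by omega⟩ : Fin (L + 1)) phi₁ := by
  rintro ⟨_, h | ⟨a, _, ⟨_, ha⟩, b, hab, hb, d, hbd, _, hd⟩⟩
  · rcases h ⟨1, by omega⟩ (Or.inl (by simp [Fin.lt_def])) with h | h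
    · exact h (Or.inl ⟨rfl, rfl⟩)
    · rcases h ⟨2, by omega⟩ (Or.inl (by simp [Fin.lt_def])) with h | h
      · rcases h with ⟨_, h⟩ | ⟨h, _⟩
        · simp at h
        · omega
      · rcases h ⟨3, by omega⟩ (Or.inl (by simp [Fin.lt_def])) with h | h
        · exact h (Or.inl ⟨rfl, by norm_num⟩)
        · exact h (Or.inr ⟨rfl, rfl⟩)
  · have e1 : a.1 = 3 := by
      rcases ha with ⟨h, _⟩ | ⟨_, h⟩
      · omega
      · exact h
    have e2 : d.1 = 3 := by
      rcases hd with ⟨h, _⟩ | ⟨_, h⟩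
      · omega
      · exact h
    have e3 : a.1 ≤ b.1 := by
      rcases hab with h' | ⟨_, h'⟩
      · exact le_of_lt h'
      · rw [h']
    have e4 : b.1 ≤ d.1 := by
      rcases hbd with h' | ⟨_, h'⟩
      · exact le_of_lt h'
      · rw [h']
    have e5 : b.1 = 3 := by omega
    exact hb (Or.inl ⟨rfl, by rw [e5]⟩)

lemma no_positive (α : Form) (hα : α.Positive {0}) (c : Prop) :
    ∃ L, ¬ (sat (Rel L c) (Val L 1) (⟨0, by omega⟩ : Fin (L + 1)) (phi₁.iff α) ∧
      sat (Rel L c) (Val L 3) (⟨0, by omega⟩ : Fin (L + 1)) (phi₁.iff α)) := by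
  refine ⟨2 * depth α + 3, ?_⟩
  rintro ⟨⟨h1, _⟩, ⟨_, h2⟩⟩
  have h3 : sat (Rel _ c) (Val _ 1) (⟨0, by omega⟩ : Fin (2 * depth α + 3 + 1)) α := by
    rcases h1 with h1 | h1
    · rw [sat_not] at h1
      exact absurd (phi_true _ (by omega) c) h1
    · exact h1
  have h4 := preserved (2 * depth α + 3) c α hα (depth α) le_rfl (by omega) ⟨0, by omega⟩
    ⟨0, by omega⟩ (by unfold Sim; simp) h3
  rcases h2 with h2 | h2
  · rw [sat_not] at h2
    exact h2 h4
  · exact phi_false _ (by omega) c h2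

/-- **`GL.3` and `Grz.3` do not have the Lyndon positivity property**; neither does any `Λ` with
`K4.3 ⊆ Λ ⊆ GL.3` or `K4.3 ⊆ Λ ⊆ Grz.3`. -/
theorem result : ¬ LPP GL3 ∧ ¬ LPP Grz3 ∧
    ∀ Λ : Set Form, K43 ⊆ Λ → (Λ ⊆ GL3 ∨ Λ ⊆ Grz3) → ¬ LPP Λ := by
  have main : ∀ Λ : Set Form, K43 ⊆ Λ → (Λ ⊆ GL3 ∨ Λ ⊆ Grz3) → ¬ LPP Λ := by
    intro Λ h1 h2 hL
    obtain ⟨α, _, hα, hiff⟩ := hL {0} {1} (by simp) phi₁ (by decide) (phi_monotone h1)
    rcases h2 with h2 | h2
    · obtain ⟨L, hn⟩ := no_positive α hα False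
      have hR : (Rel L False) = (fun x y => x < y) := by
        funext x y
        simp [Rel]
      rw [hR] at hn
      exact hn ⟨h2 hiff _ _ _, h2 hiff _ _ _⟩
    · obtain ⟨L, hn⟩ := no_positive α hα True
      have hR : (Rel L True) = (fun x y => x ≤ y) := by
        funext x y
        simp [Rel, le_iff_lt_or_eq]
      rw [hR] at hn
      exact hn ⟨h2 hiff _ _ _, h2 hiff _ _ _⟩
  refine ⟨main GL3 ?_ (Or.inl le_rfl), main Grz3 ?_ (Or.inr le_rfl), main⟩
  · intro φ hφ W _ _ V w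
    exact hφ W (fun x y => x < y) (fun _ _ _ => lt_trans) (fun _ y z _ _ => lt_trichotomy y z) V w
  · intro φ hφ W _ _ V w
    exact hφ W (fun x y => x ≤ y) (fun _ _ _ => le_trans)
      (fun _ y z _ _ => (le_total y z).imp id Or.inr) V w

end Pool.Agent.Results.MP_4f615a_lc.NoLyndonPositivity
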